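import Mathlib
import Pool.Agent.Helper729_cluster.Core

/-!
# Exact extremal families without a near-minimal cluster (MP_b0b8df_co, Q1, full answer)

For every `d ≥ 1` and `ζ > 0` there is `C` such that for all `n` and all `k ≥ 1` with
`C log n ≤ k ≤ (d/(d+1) - ζ) n`, every family `F` of `k`-subsets of an `n`-set without a
`(d, k, ((d+1)/d + ζ) k)`-cluster has at most `C(n-1,k-1)` members, with equality iff `F` is a star.
-/

namespace Pool.Agent.Results.MP_b0b8df_co.StarExtremal

open Finset

/-- `F` contains a cluster with parameter `s`: there are `d+1` distinct members of `F` whose common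
intersection is empty and whose union has at most `s` elements. (The common size `k` of the members
is imposed on the family separately.) -/
def HasCluster {n : ℕ} (d : ℕ) (s : ℝ) (F : Finset (Finset (Fin n))) : Prop :=
  ∃ A : Fin (d + 1) → Finset (Fin n), Function.Injective A ∧ (∀ i, A i ∈ F) ∧
    (⋂ i, (A i : Set (Fin n))) = ∅ ∧ ((univ.biUnion A).card : ℝ) ≤ s

/-- The star of `x`: all `k`-element subsets of `Fin n` containing `x`. -/
def star {n : ℕ} (k : ℕ) (x : Fin n) : Finset (Finset (Fin n)) :=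
  (powersetCard k univ).filter (fun A => x ∈ A)

/-- A star has `C(n-1,k-1)` members. -/
theorem card_star {n k : ℕ} (hk : 1 ≤ k) (x : Fin n) :
    (star k x).card = (n - 1).choose (k - 1) := by
  have h1 : (star k x).card = ((univ.erase x).powersetCard (k - 1)).card := by
    refine card_bij' (fun A _ => A.erase x) (fun B _ => insert x B) ?_ ?_ ?_ ?_
    · intro A hA
      rw [star, mem_filter, mem_powersetCard] at hA
      rw [mem_powersetCard]
      refine ⟨erase_subset_erase x hA.1.1, ?_⟩
      rw [card_erase_of_mem hA.2, hA.1.2]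
    · intro B hB
      rw [mem_powersetCard] at hB
      rw [star, mem_filter, mem_powersetCard]
      have hx : x ∉ B := fun h => by simpa using hB.1 h
      refine ⟨⟨subset_univ _, ?_⟩, mem_insert_self x B⟩
      rw [card_insert_of_notMem hx, hB.2]
      omega
    · intro A hA
      rw [star, mem_filter] at hA
      exact insert_erase hA.2
    · intro B hB
      rw [mem_powersetCard] at hB
      have hx : x ∉ B := fun h => by simpa using hB.1 h
      exact erase_insert hx
  rw [h1, card_powersetCard, card_erase_of_mem (mem_univ x), card_univ, Fintype.card_fin]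

/-- For small `ζ` the members of a cluster (with repetitions allowed) are automatically distinct. -/
theorem injective_of_small {n d k : ℕ} (hd : 1 ≤ d) (hk : 1 ≤ k) {ζ : ℝ} (hζ0 : 0 < ζ)
    (hζ : ζ ≤ 1 / (2 * (d : ℝ) ^ 2)) (A : Fin (d + 1) → Finset (Fin n))
    (hA : ∀ i, (A i).card = k) (hemp : ∀ x, ∃ i, x ∉ A i)
    (hU : ((univ.biUnion A).card : ℝ) ≤ (((d : ℝ) + 1) / d + ζ) * k) : Function.Injective A := by
  classical
  by_contra hinj
  unfold Function.Injective at hinj
  push Not at hinj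
  obtain ⟨a, b, hab, hne⟩ := hinj
  have hd0 : (0 : ℝ) < d := by exact_mod_cast hd
  have hk0 : (0 : ℝ) < k := by exact_mod_cast hk
  -- double counting over the indices different from a
  have h1 : ∑ i ∈ univ.erase a, (A i).card = d * k := by
    rw [sum_congr rfl (fun i _ => hA i), sum_const, card_erase_of_mem (mem_univ a), card_univ,
      Fintype.card_fin, smul_eq_mul]
    simp
  have h2 : ∑ i ∈ univ.erase a, (A i).card =
      ∑ x ∈ univ.biUnion A, ((univ.erase a).filter (fun i => x ∈ A i)).card := by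
    have e1 : ∀ i ∈ univ.erase a, (A i).card =
        ∑ x ∈ univ.biUnion A, (if x ∈ A i then 1 else 0) := by
      intro i _
      rw [sum_ite_mem, sum_const, smul_eq_mul, mul_one]
      congr 1
      ext x
      simp only [mem_inter, mem_biUnion, mem_univ, true_and]
      exact ⟨fun h => ⟨⟨i, h⟩, h⟩, fun h => h.2⟩
    rw [sum_congr rfl e1, sum_comm]
    refine sum_congr rfl fun x _ => ?_
    rw [card_filter]
  have h3 : ∀ x ∈ univ.biUnion A, ((univ.erase a).filter (fun i => x ∈ A i)).card ≤ d - 1 := by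
    intro x _
    obtain ⟨i, hi⟩ := hemp x
    obtain ⟨j, hja, hj⟩ : ∃ j, j ≠ a ∧ x ∉ A j := by
      by_cases hia : i = a
      · refine ⟨b, fun h => hne h.symm, ?_⟩
        rw [← hab, ← hia]
        exact hi
      · exact ⟨i, hia, hi⟩
    have h4 : (univ.erase a).filter (fun i => x ∈ A i) ⊆ (univ.erase a).erase j := by
      intro i hi'
      rw [mem_filter] at hi'
      rw [mem_erase]
      exact ⟨fun h => hj (h ▸ hi'.2), hi'.1⟩
    refine (card_le_card h4).trans ?_
    rw [card_erase_of_mem (mem_erase.2 ⟨hja, mem_univ j⟩), card_erase_of_mem (mem_univ a),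
      card_univ, Fintype.card_fin]
    omega
  have h5 : d * k ≤ (univ.biUnion A).card * (d - 1) := by
    rw [← h1, h2, ← smul_eq_mul]
    exact sum_le_card_nsmul _ _ _ h3
  have h6 : (d : ℝ) * k ≤ ((univ.biUnion A).card : ℝ) * ((d : ℝ) - 1) := by
    have : ((d * k : ℕ) : ℝ) ≤ (((univ.biUnion A).card * (d - 1) : ℕ) : ℝ) := by exact_mod_cast h5
    rw [Nat.cast_mul, Nat.cast_mul, Nat.cast_sub hd] at this
    simpa using this
  have hd1 : (0 : ℝ) ≤ (d : ℝ) - 1 := by
    have : (1 : ℝ) ≤ d := by exact_mod_cast hd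
    linarith
  have h7 : (d : ℝ) * k ≤ ((((d : ℝ) + 1) / d + ζ) * k) * ((d : ℝ) - 1) :=
    h6.trans (mul_le_mul_of_nonneg_right hU hd1)
  have h8 : (d : ℝ) ≤ (((d : ℝ) + 1) / d + ζ) * ((d : ℝ) - 1) := by
    have : (d : ℝ) * k ≤ ((((d : ℝ) + 1) / d + ζ) * ((d : ℝ) - 1)) * k := by linarith
    exact le_of_mul_le_mul_right this hk0
  have h9 : ζ * (2 * (d : ℝ) ^ 2) ≤ 1 := by
    rwa [le_div_iff₀ (by positivity)] at hζ
  have h10 : (d : ℝ) * d ≤ (((d : ℝ) + 1) + ζ * d) * ((d : ℝ) - 1) := by
    calc (d : ℝ) * d ≤ (d : ℝ) * ((((d : ℝ) + 1) / d + ζ) * ((d : ℝ) - 1)) :=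
          mul_le_mul_of_nonneg_left h8 hd0.le
      _ = (((d : ℝ) + 1) + ζ * d) * ((d : ℝ) - 1) := by field_simp
  nlinarith

/-- **Q1, full answer.** -/
theorem result : ∀ d : ℕ, 1 ≤ d → ∀ ζ : ℝ, 0 < ζ → ∃ C : ℝ, 0 < C ∧ ∀ n k : ℕ, 1 ≤ k →
    C * Real.log n ≤ k → (k : ℝ) ≤ ((d : ℝ) / (d + 1) - ζ) * n →
    ∀ F : Finset (Finset (Fin n)), (∀ A ∈ F, A.card = k) →
      ¬ HasCluster d ((((d : ℝ) + 1) / d + ζ) * k) F →
      F.card ≤ (n - 1).choose (k - 1) ∧
        (F.card = (n - 1).choose (k - 1) ↔ ∃ x : Fin n, F = star k x) := by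
  intro d hd ζ hζ
  have hd0 : (0 : ℝ) < d := by exact_mod_cast hd
  have hd1 : (1 : ℝ) ≤ d := by exact_mod_cast hd
  obtain ⟨z, hz⟩ : ∃ z, z = min ζ (1 / (2 * (d : ℝ) ^ 2)) := ⟨_, rfl⟩
  have hz0 : 0 < z := by rw [hz]; exact lt_min hζ (by positivity)
  have hzζ : z ≤ ζ := by rw [hz]; exact min_le_left _ _
  have hz2 : z ≤ 1 / (2 * (d : ℝ) ^ 2) := by rw [hz]; exact min_le_right _ _
  have hzh : z ≤ 1 / 2 := by
    refine hz2.trans ?_
    apply one_div_le_one_div_of_le (by norm_num)
    nlinarith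
  obtain ⟨C, hC, H⟩ := Pool.Agent.Helper729_cluster.core d hd z hz0 hzh
  refine ⟨C, hC, ?_⟩
  intro n k hk hCk hkn F hF hcl
  have hn0 : (0 : ℝ) ≤ n := Nat.cast_nonneg n
  have hkn' : (k : ℝ) ≤ ((d : ℝ) / (d + 1) - z) * n :=
    hkn.trans (mul_le_mul_of_nonneg_right (by linarith) hn0)
  have hcard : (univ : Finset (Fin n)).card = n := by simp
  -- no cluster even with repetitions
  have hno : Pool.Agent.Helper729_cluster.NoCl d ((((d : ℝ) + 1) / d + z) * k) F := by
    intro B hB hemp
    by_contra hle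
    push Not at hle
    refine hcl ⟨B, injective_of_small hd hk hz0 hz2 B (fun i => hF _ (hB i)) hemp hle, hB, ?_, ?_⟩
    · ext x
      simp only [Set.mem_iInter, mem_coe, Set.mem_empty_iff_false, iff_false]
      push Not
      exact hemp x
    · exact hle.trans (mul_le_mul_of_nonneg_right (by linarith) (Nat.cast_nonneg k))
  -- a large family is a star
  have key : (n - 1).choose (k - 1) ≤ F.card → ∃ x : Fin n, F = star k x := by
    intro hFc
    obtain ⟨x, _, hx⟩ := H (Fin n) univ F k hk (by rw [hcard]; exact hCk)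
      (by rw [hcard]; exact hkn') (fun A hA => ⟨subset_univ A, hF A hA⟩) hno
      (by rw [hcard]; exact hFc)
    refine ⟨x, eq_of_subset_of_card_le ?_ ?_⟩
    · intro A hA
      rw [star, mem_filter, mem_powersetCard]
      exact ⟨⟨subset_univ A, hF A hA⟩, hx A hA⟩
    · rw [card_star hk x]
      exact hFc
  constructor
  · by_contra hc
    push Not at hc
    obtain ⟨x, hx⟩ := key hc.le
    rw [hx, card_star hk x] at hc
    exact lt_irrefl _ hc
  · constructor
    · intro h
      exact key h.ge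
    · rintro ⟨x, hx⟩
      rw [hx, card_star hk x]

end Pool.Agent.Results.MP_b0b8df_co.StarExtremal
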